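import Mathlib

/-! Project GR (MP_eff4ce_al): finite semigroups with 12 generators whose commuting graphs contain a
cycle and have arbitrarily large girth.  The semigroup: nonempty words over the letters
`Fin 6 × Bool` (type, bit) modulo the congruence `E n T`.  `T` is a sequence of types of period `n`.
A word is readable if its types are `T i, T (i+1), ...` for some `i`.  Unreadable words form the
kernel (a rectangular band of constants), readable loops (length divisible by `n`) are idempotent,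
two nonequivalent readable words never commute.  So the commuting graph is bipartite, and cycles
only come from the identifications `Flip` of the constants `$ v` (`$ = (5, true)`), which are
arranged so that at index `0` there is one cycle with `2(n-1)` loops and elsewhere only paths. -/

set_option autoImplicit false

namespace Pool.Agent.X172.GR

/-- letters: a type and a bit -/
abbrev Ltr : Type := Fin 6 × Bool

structure Ty (n : ℕ) (T : ℕ → Fin 6) : Prop where
  per : ∀ i, T (i + n) = T i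
  ne5 : ∀ i, T i ≠ 5
  hash : ∀ i, T i = 4 ↔ n ∣ i + 1
  sqf : ∀ i p, 0 < p → ¬ n ∣ p → ∃ j, j < p ∧ T (i + j) ≠ T (i + p + j)

/-- (TY) `T i = 4` if `n ∣ i + 1`, otherwise `wd (i % n)` with the square-free word
`wd` on four letters of `Pool/Agent/S08659.lean` (`wd_lt`, `wd_sq`; copy it). If `T(i+j)=T(i+p+j)` for
all `j<p` and some `i+j` or `i+p+j` is `-1` mod `n` then `n ∣ p`; otherwise `2p < n` and the window lies
inside one period. -/
def S_TY : Prop := ∀ n : ℕ, 4 ≤ n → ∃ T, Ty n T

/-- readable from index `i` -/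
def Rd (T : ℕ → Fin 6) : ℕ → List Ltr → Prop
  | _, [] => True
  | i, a :: w => a.1 = T i ∧ Rd T (i + 1) w

def Readable (T : ℕ → Fin 6) (w : List Ltr) : Prop := ∃ i, Rd T i w

/-- left equivalence -/
def LE (n : ℕ) (T : ℕ → Fin 6) (u w : List Ltr) : Prop :=
  u = w ∨ ∃ p, p <+: u ∧ p <+: w ∧ (¬ Readable T p ∨ p.length = n)

def bit (z : List Ltr) (j : ℕ) : Bool := (z.getD j (0, false)).2

def lo (k : ℕ) : ℕ := if k = 0 then 1 else 0

/-- the letter number `a` of `z` (read at the position `a + k`) may be flipped -/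
def Cond (n k a : ℕ) (z : List Ltr) : Prop :=
  (k = 0 ∧ a = 0 ∧ ((∀ j, 1 ≤ j → j < n - 1 → bit z j = true) ∨
    ∀ j, 1 ≤ j → j < n - 1 → bit z j = false)) ∨
  (lo k ≤ a ∧ a + k < n - 1 ∧ (∀ j, lo k ≤ j → j < a → bit z j = true) ∧
    ∀ j, a < j → j + k < n - 1 → bit z j = false)

/-- `z`, `z'` have length `n`, are read from `k` (and end at `k` modulo `n`), and differ exactly in the
bit number `(n - m) % n`, where the flip is allowed -/
def Flip (n : ℕ) (T : ℕ → Fin 6) (m : ℕ) (z z' : List Ltr) : Prop :=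
  z.length = n ∧ z'.length = n ∧ ∃ k, k < n ∧ Rd T k z ∧ Rd T k z' ∧ Cond n k ((n - m) % n) z ∧
    bit z ((n - m) % n) ≠ bit z' ((n - m) % n) ∧ ∀ j, j ≠ (n - m) % n → bit z j = bit z' j

/-- `v` = the longest readable suffix of `w`, of length at least `n`, congruent to `m`, `h` the letter
before it, `z` its last `n` letters -/
def Suf (n : ℕ) (T : ℕ → Fin 6) (w : List Ltr) (h : Option Ltr) (m : ℕ) (z : List Ltr) : Prop :=
  ∃ v, Readable T v ∧ n ≤ v.length ∧ v.length % n = m ∧ z <:+ v ∧ z.length = n ∧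
    ((h = none ∧ w = v) ∨ ∃ a y, h = some a ∧ w = y ++ a :: v ∧ ¬ Readable T (a :: v))

def Zeq (n : ℕ) (T : ℕ → Fin 6) (h : Option Ltr) (m : ℕ) (z z' : List Ltr) : Prop :=
  z = z' ∨ (h = some (5, true) ∧ Flip n T m z z')

/-- right equivalence -/
def RE (n : ℕ) (T : ℕ → Fin 6) (u w : List Ltr) : Prop :=
  u = w ∨ (∃ q, q <:+ u ∧ q <:+ w ∧ ¬ Readable T q) ∨
    ∃ h m z z', Suf n T u h m z ∧ Suf n T w h m z' ∧ Zeq n T h m z z'

def E (n : ℕ) (T : ℕ → Fin 6) (u w : List Ltr) : Prop := LE n T u w ∧ RE n T u w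

/-- (LEC) `LE` is an equivalence relation and a congruence (easy: common prefixes; factors of readable
words are readable) -/
def S_LEC : Prop := ∀ n T, 4 ≤ n → Ty n T → Equivalence (LE n T) ∧
  ∀ u w g, LE n T u w → LE n T (g :: u) (g :: w) ∧ LE n T (u ++ [g]) (w ++ [g])

/-- (REQ) `RE` is an equivalence relation, and the data of `Suf` are unique. A readable word of length
`≥ n` is readable from only one index modulo `n` (by `sqf`, or `hash`: it contains the type `4`).
Transitivity: if `u`, `w` share an unreadable suffix then they have the same `Suf` data (`h ≠ none`).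
`Zeq` is an equivalence: two flips of the same bit cancel, a flip is symmetric. -/
def S_REQ : Prop := ∀ n T, 4 ≤ n → Ty n T → Equivalence (RE n T) ∧
  (∀ w h m z h' m' z', Suf n T w h m z → Suf n T w h' m' z' → h = h' ∧ m = m' ∧ z = z') ∧
  (∀ h m z z' z'', Zeq n T h m z z' → Zeq n T h m z' z'' → Zeq n T h m z z'') ∧
  (∀ h m z z', Zeq n T h m z z' → Zeq n T h m z' z) ∧
  ∀ u w, RE n T u w → (Readable T u ↔ Readable T w)

/-- (REL) left compatibility of `RE`. Only the case of `Suf` data with `h = none` needs a thought: then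
`z = z'`, and both words are readable from the same index `i` modulo `n`; `g :: u` is readable iff
`g.1 = T (i - 1)` iff `g :: w` is (unique index for words of length `≥ n`). -/
def S_REL : Prop := ∀ n T, 4 ≤ n → Ty n T → ∀ u w g, RE n T u w → RE n T (g :: u) (g :: w)

/-- (RER) right compatibility of `RE`. Case of `Suf` data: `v`, `v'` end at the same index `k` (as `z`,
`z'` are read from the same index). If `g.1 = T k` then `v ++ [g]`, `v' ++ [g]` are readable, the new data
are `h, (m+1) % n, z.tail ++ [g], z'.tail ++ [g]`; a flip of bit `a = (n-m)%n` becomes a flip of bit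
`a - 1` with `k + 1` for `k` (or the words become equal if `a = 0`; note `k = n - 1` allows no flips). If
`g.1 ≠ T k`: for `z = z'` the common suffix `z ++ [g]` is unreadable; for a flip (`a + k < n - 1`) the
common suffix `z.drop (n - 1 - k) ++ [g]` begins with the type `4`, so can only be read from an index
`-1` mod `n`, and is unreadable. -/
def S_RER : Prop := ∀ n T, 4 ≤ n → Ty n T → ∀ u w g, RE n T u w → RE n T (u ++ [g]) (w ++ [g])

/-- (FIN) short representatives. Readable `u`, `|u| ≥ 3n`: `u.take (n + |u| % n) ++` last `n` letters.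
Unreadable `u`, `|u| ≥ n`: `u.take n ++ s`, `s` the shortest unreadable suffix `a :: v` of `u`, if
`|v| ≥ 2n` with `v` replaced by `v.take (|v| % n) ++` last `n` letters of `v` (then use `Suf` data). -/
def S_FIN : Prop := ∀ n T, 4 ≤ n → Ty n T → ∀ u : List Ltr, u ≠ [] →
  ∃ w : List Ltr, w ≠ [] ∧ w.length ≤ 5 * n ∧ E n T u w

/-- (LOOP) if `s ++ s` is readable then `n ∣ |s|` by `sqf`, and `s ++ s` is equivalent to `s` -/
def S_LOOP : Prop := ∀ n T, 4 ≤ n → Ty n T → ∀ s : List Ltr, s ≠ [] → Readable T (s ++ s) →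
  n ∣ s.length ∧ E n T (s ++ s) s

/-- (COM) readable words which commute are equivalent. Put `d = (5, false)` (never readable).
Let `M = max |s| |t|`. From `LE`: `st$`, `ts$` are equal or have a common prefix `p` of length `n`, or
unreadable of length `≥ M + 1`. From `RE`: `$st`, `$ts` are equal or have a common suffix `q` of length
`n` (the `Suf` data: `h ≠ some (5, true)`, since this letter does not occur) or unreadable of length
`≥ M + 1`. If `M < n` then prefix and suffix cover, so `st = ts`; if `|s| < |t|`, `t = s t'`, then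
`s t' = t' s` and `t` begins with the square `s s` or (if `|t'| < |s|`) `t' t'` of a nonempty word of
length `< n`, contradiction to `sqf`; so `s = t`. If `|t| ≥ n`: the words `st`, `ts` have the same first
`n` and the same last `n` letters. If also `|s| ≥ n`, then `s`, `t` have the same first `n` and the same
last `n` letters, so the same start index and end index, `|s| ≡ |t|` mod `n`, so `E s t`. If
`p = |s| < n`: let `t` be read from `i` to `k`. `s` is a prefix of `t` and the prefix of `t` of length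
`n - p` occurs again at `p`: `T(i+j) = T(i+p+j)` for `j < n - p`; so by `sqf` `n - p < p`. `s` is a
suffix of `t`, and the suffix of `t` of length `n - p` also ends `p` before: `T(k-1-j) = T(k-p-1-j)`,
`j < n - p`. `s` is read from `i` and from `k - p`; as `p > n/2`, these are equal mod `n` (else a square
of period `δ ≤ p` or `n - δ < p`, where `δ = k - p - i`). So `i ≡ k + (n - p)`, and the second relation
says `T(k-m+j) = T(k+j)` for `j < m = n - p`: a square, contradiction. -/
def S_COM : Prop := ∀ n T, 4 ≤ n → Ty n T → ∀ s t : List Ltr, s ≠ [] → t ≠ [] →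
  Readable T s → Readable T t → LE n T (s ++ t ++ [(5, false)]) (t ++ s ++ [(5, false)]) →
  RE n T ((5, false) :: (s ++ t)) ((5, false) :: (t ++ s)) → E n T s t

/-- last `n` letters of a loop -/
def Tail (n : ℕ) (s z : List Ltr) : Prop := z <:+ s ∧ z.length = n ∧ n ∣ s.length

/-- (ADJ) Neighbours. You may use `S_LEC`, `S_REQ`, `S_REL`, `S_RER`, `S_LOOP`. Let `s` readable commute
with `κ` unreadable. `κ s ~L κ` and `s κ ~R κ` (unreadable prefix/suffix), so `LE (sκ) κ`, `RE (κs) κ`.
If `s s` were unreadable then `LE (ss) κ`, `RE (ss) κ` (multiply), so `E (ss) κ`, and the same for `κ'`, so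
`E κ κ'`, contradiction. So `s` is a loop (LOOP), `|s| ≥ n`; likewise `s1`, `s1'`? (not needed:
`s1` has the two ... no) -- see below. `LE (sκ) κ` gives: `κ` and `s` have the same first `n` letters.
`RE (κs) κ` gives `Suf κ h m z'` with `Zeq h m z z'`, `z` = last `n` letters of `s`. In the statement `s1`,
`s1'` are assumed to be loops too. Same for `s1`: so `Zeq h m z z1`; if `z = z1` then `E s s1` (same
first `n` letters, same last `n`, lengths divisible by `n`). So `Flip m z z1` and `h = some (5,true)`.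
Same for `κ'`, `s1'`, `m'`. If `m = m'` then `E κ κ'`. -/
def S_ADJ : Prop := ∀ n T, 4 ≤ n → Ty n T → S_LEC → S_REQ → S_REL → S_RER → S_LOOP →
  ∀ s κ κ' s1 s1' : List Ltr, s ≠ [] → κ ≠ [] → κ' ≠ [] → s1 ≠ [] → s1' ≠ [] →
  Readable T s → Readable T s1 → Readable T s1' → ¬ Readable T κ → ¬ Readable T κ' →
  Readable T (s1 ++ s1) → Readable T (s1' ++ s1') →
  E n T (s ++ κ) (κ ++ s) → E n T (s1 ++ κ) (κ ++ s1) → E n T (s ++ κ') (κ' ++ s) →
  E n T (s1' ++ κ') (κ' ++ s1') → ¬ E n T s s1 → ¬ E n T s s1' → ¬ E n T κ κ' →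
  ∃ z z1 z1' m m', Tail n s z ∧ Tail n s1 z1 ∧ Tail n s1' z1' ∧ Flip n T m z z1 ∧
    Flip n T m' z z1' ∧ m < n ∧ m' < n ∧ m ≠ m'

/-- (ONE) a readable non-loop has only one neighbour: if `ss` is unreadable and `s` commutes with the
unreadable `κ` then `E (ss) κ` (proof in (ADJ)) -/
def S_ONE : Prop := ∀ n T, 4 ≤ n → Ty n T → S_LEC → S_REQ → S_REL → S_RER →
  ∀ s κ : List Ltr, s ≠ [] → Readable T s → ¬ Readable T κ → ¬ Readable T (s ++ s) →
  E n T (s ++ κ) (κ ++ s) → E n T (s ++ s) κ

/-- levels at index `0` -/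
def Lev0 (n : ℕ) (T : ℕ → Fin 6) (z : List Ltr) (u : ℕ) : Prop :=
  z.length = n ∧ Rd T 0 z ∧ 1 ≤ u ∧ u ≤ n - 1 ∧ (∀ j, 1 ≤ j → j < u → bit z j = true) ∧
    ∀ j, u ≤ j → j < n - 1 → bit z j = false

/-- levels at the other indices -/
def Lev1 (n : ℕ) (T : ℕ → Fin 6) (z : List Ltr) (u : ℕ) : Prop :=
  z.length = n ∧ ∃ k, 0 < k ∧ k < n ∧ Rd T k z ∧ u + k ≤ n - 1 ∧
    (∀ j, j < u → bit z j = true) ∧ ∀ j, u ≤ j → j + k < n - 1 → bit z j = false

/-- (LEV) two different flips. The index `k` is unique. If both flips are of the second kind in `Cond`,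
`a < a'`, then `a' = a + 1 =: u` is the level of `z`, and `z1`, `z1'` have the levels `u - 1`, `u + 1`. If
`k = 0`, `a = 0`: the bits of `[1, n-1)` are all true (then `a' = n - 2`, level `n - 1`) or all false
(then `a' = 1`, level `1`). -/
def S_LEV : Prop := ∀ n T, 4 ≤ n → Ty n T →
  (∀ z u u', Lev0 n T z u → Lev0 n T z u' → u = u') ∧
  (∀ z u u', Lev1 n T z u → Lev1 n T z u' → u = u') ∧
  (∀ z u u', ¬ (Lev0 n T z u ∧ Lev1 n T z u')) ∧
  ∀ z z1 z1' m m', Flip n T m z z1 → Flip n T m' z z1' → m < n → m' < n → m ≠ m' →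
    (∃ u, Lev0 n T z u ∧ (u < n - 1 → Lev0 n T z1 (u + 1) ∨ Lev0 n T z1' (u + 1)) ∧
      (1 < u → Lev0 n T z1 (u - 1) ∨ Lev0 n T z1' (u - 1))) ∨
    ∃ u, Lev1 n T z (u + 1) ∧ (Lev1 n T z1 u ∨ Lev1 n T z1' u)

/-- (CYS) the cycle. Let `w0` be the word of length `n` read from `0` with all bits false. For `b : Bool`,
`1 ≤ u ≤ n - 1` let `z b u` be the word of length `n` read from `0` with the bits `b, 1^(u-1), 0^(n-u)`.
`P` = the words `w0 ++ z b u`; for `m < n` let `c m` be the word of length `m` read from `n - m` with bits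
false, `Q` = the words `w0 ++ (5,true) :: (c m ++ z)`, for `z = z b u` and `m` such that `(n-m)%n` is one of
the two allowed flips of `z` (`u - 1` if `u ≥ 2`, `u` if `u ≤ n - 2`, `0` if `u = 1` or `u = n - 1`). `P` and
`Q` words commute if they have the same `z` (common prefix `w0`; `Suf` data). The word of `Q` for
`z, m` is equivalent to the one for the flipped `z`. -/
def S_CYS : Prop := ∀ n T, 4 ≤ n → Ty n T → S_LEC → S_REQ →
  ∃ P Q : Set (List Ltr), P.Finite ∧ Q.Finite ∧ P.Nonempty ∧
  (∀ s ∈ P, s ≠ [] ∧ Readable T s) ∧ (∀ κ ∈ Q, κ ≠ [] ∧ ¬ Readable T κ) ∧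
  (∀ s ∈ P, ∃ κ ∈ Q, ∃ κ' ∈ Q, ¬ E n T κ κ' ∧ E n T (s ++ κ) (κ ++ s) ∧ E n T (s ++ κ') (κ' ++ s)) ∧
  ∀ κ ∈ Q, ∃ s ∈ P, ∃ s' ∈ P, ¬ E n T s s' ∧ E n T (s ++ κ) (κ ++ s) ∧ E n T (s' ++ κ) (κ ++ s')

/-- (GIR) pure graph theory. Every vertex of a cycle has exactly two neighbours in the subgraph of the
cycle (`SimpleGraph.Walk.IsCycle.ncard_neighborSet_toSubgraph_eq_two`). Take `s ∉ K` on the cycle, its
two neighbours `κ ≠ κ'` on the cycle, their other neighbours `s1`, `s1'` on the cycle. `U1` would give an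
infinite descent; so `U0`, and all levels `1, ..., N` occur on the cycle, so it has at least `N`
vertices. -/
def S_GIR : Prop := ∀ (V : Type) (G : SimpleGraph V) (K : Set V) (U0 U1 : V → ℕ → Prop) (N : ℕ),
  (∀ x y, G.Adj x y → (x ∈ K ↔ y ∉ K)) →
  (∀ x u u', U0 x u → U0 x u' → u = u') → (∀ x u u', U1 x u → U1 x u' → u = u') →
  (∀ x u u', ¬ (U0 x u ∧ U1 x u')) →
  (∀ s κ κ' s1 s1', s ∉ K → G.Adj s κ → G.Adj s κ' → κ ≠ κ' → G.Adj κ s1 → G.Adj κ' s1' →
    s1 ≠ s → s1' ≠ s → (∃ κ2, κ2 ≠ κ ∧ G.Adj s1 κ2) → (∃ κ2, κ2 ≠ κ' ∧ G.Adj s1' κ2) →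
    (∃ u, U0 s u ∧ 1 ≤ u ∧ u ≤ N ∧ (u < N → U0 s1 (u + 1) ∨ U0 s1' (u + 1)) ∧
      (1 < u → U0 s1 (u - 1) ∨ U0 s1' (u - 1))) ∨
    ∃ u, U1 s (u + 1) ∧ (U1 s1 u ∨ U1 s1' u)) →
  ∀ (a : V) (w : G.Walk a a), w.IsCycle → N ≤ w.length

/-- (MIN) pure graph theory: a finite nonempty set of vertices, each with two neighbours in the set,
contains a cycle (a forest has a vertex of degree at most one; or take a longest path) -/
def S_MIN : Prop := ∀ (V : Type) (G : SimpleGraph V) (W : Set V), W.Finite → W.Nonempty →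
  (∀ x ∈ W, ∃ y ∈ W, ∃ z ∈ W, y ≠ z ∧ G.Adj x y ∧ G.Adj x z) → ¬ G.IsAcyclic

end Pool.Agent.X172.GR
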