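import Pool.Agent.X172.GR.Stm

/-! Project GR (MP_eff4ce_al): the assembly of the parts. -/

set_option autoImplicit false

namespace Pool.Agent.X172.GR

/-- The commuting graph of a semigroup `S`: the vertices are the non-central elements, two distinct
vertices are adjacent exactly when the elements commute. -/
def commGraph (S : Type) [Semigroup S] : SimpleGraph {x : S // x ∉ Set.center S} where
  Adj x y := x ≠ y ∧ (x : S) * (y : S) = (y : S) * (x : S)
  symm := ⟨fun _ _ h => ⟨h.1.symm, h.2.symm⟩⟩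
  loopless := ⟨fun _ h => h.1 rfl⟩

/-- A graph is star-free if no vertex is adjacent to every other vertex. -/
def StarFree {V : Type} (G : SimpleGraph V) : Prop := ∀ x : V, ∃ y : V, y ≠ x ∧ ¬ G.Adj x y

/-- `RankLE G C`: the graph `G` is isomorphic to the commuting graph of a (finite) semigroup which is
generated by at most `C` elements. -/
def RankLE {V : Type} (G : SimpleGraph V) (C : ℕ) : Prop :=
  ∃ (S : Type) (_ : Semigroup S), Finite S ∧
    (∃ A : Finset S, A.card ≤ C ∧ Subsemigroup.closure (A : Set S) = ⊤) ∧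
    Nonempty (commGraph S ≃g G)

theorem starFree_commGraph (S : Type) [Semigroup S] : StarFree (commGraph S) := by
  intro x
  have hx := x.2
  rw [Semigroup.mem_center_iff] at hx
  push Not at hx
  obtain ⟨y, hy⟩ := hx
  have hyc : y ∉ Set.center S := by
    rw [Semigroup.mem_center_iff]
    intro h
    exact hy (h x.1).symm
  refine ⟨⟨y, hyc⟩, ?_, ?_⟩
  · intro h
    apply hy
    have : y = x.1 := congrArg Subtype.val h
    rw [this]
  · intro h
    exact hy h.2.symm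

/-- nonempty words -/
abbrev Wd : Type := {w : List Ltr // w ≠ []}

instance : Semigroup Wd where
  mul a b := ⟨a.1 ++ b.1, by simp [a.2]⟩
  mul_assoc a b c := Subtype.ext (List.append_assoc _ _ _)

theorem Wd.mul_val (a b : Wd) : (a * b).1 = a.1 ++ b.1 := rfl

section

variable {n : ℕ} {T : ℕ → Fin 6}

theorem le_congr (hLEC : S_LEC) (hn : 4 ≤ n) (hT : Ty n T) (u w u' w' : List Ltr)
    (h : LE n T u w) (h' : LE n T u' w') : LE n T (u ++ u') (w ++ w') := by
  obtain ⟨heq, hc⟩ := hLEC n T hn hT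
  have h1 : ∀ x : List Ltr, LE n T (u ++ x) (w ++ x) := by
    intro x
    induction x using List.reverseRecOn with
    | nil => simpa using h
    | append_singleton x a ih =>
      rw [← List.append_assoc, ← List.append_assoc]
      exact (hc _ _ a ih).2
  have h2 : ∀ x : List Ltr, LE n T (x ++ u') (x ++ w') := by
    intro x
    induction x with
    | nil => simpa using h'
    | cons a x ih => exact (hc _ _ a ih).1
  exact heq.trans (h1 u') (h2 w)

theorem re_congr (hREQ : S_REQ) (hREL : S_REL) (hRER : S_RER) (hn : 4 ≤ n) (hT : Ty n T)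
    (u w u' w' : List Ltr)
    (h : RE n T u w) (h' : RE n T u' w') : RE n T (u ++ u') (w ++ w') := by
  have heq := (hREQ n T hn hT).1
  have h1 : ∀ x : List Ltr, RE n T (u ++ x) (w ++ x) := by
    intro x
    induction x using List.reverseRecOn with
    | nil => simpa using h
    | append_singleton x a ih =>
      rw [← List.append_assoc, ← List.append_assoc]
      exact hRER n T hn hT _ _ a ih
  have h2 : ∀ x : List Ltr, RE n T (x ++ u') (x ++ w') := by
    intro x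
    induction x with
    | nil => simpa using h'
    | cons a x ih => exact hREL n T hn hT _ _ a ih
  exact heq.trans (h1 u') (h2 w)

/-- the congruence -/
def con (n : ℕ) (T : ℕ → Fin 6) (hLEC : S_LEC) (hREQ : S_REQ) (hREL : S_REL) (hRER : S_RER)
    (hn : 4 ≤ n) (hT : Ty n T) : Con Wd where
  r a b := E n T a.1 b.1
  iseqv :=
    { refl := fun a => ⟨(hLEC n T hn hT).1.refl _, (hREQ n T hn hT).1.refl _⟩
      symm := fun h => ⟨(hLEC n T hn hT).1.symm h.1, (hREQ n T hn hT).1.symm h.2⟩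
      trans := fun h h' => ⟨(hLEC n T hn hT).1.trans h.1 h'.1, (hREQ n T hn hT).1.trans h.2 h'.2⟩ }
  mul' := fun {a b c d} h h' =>
    ⟨le_congr hLEC hn hT _ _ _ _ h.1 h'.1, re_congr hREQ hREL hRER hn hT _ _ _ _ h.2 h'.2⟩

theorem not_readable_dollar (hT : Ty n T) (b : Bool) (w : List Ltr) :
    ¬ Readable T ((5, b) :: w) := by
  rintro ⟨i, hi, -⟩
  exact hT.ne5 i hi.symm

theorem readable_nil : Readable T [] := ⟨0, trivial⟩

/-- the first letters agree -/
theorem le_head (hn : 4 ≤ n) (a b : Ltr) (u w : List Ltr) (h : LE n T (a :: u) (b :: w)) :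
    a = b := by
  rcases h with h | ⟨p, hp, hq, hr⟩
  · exact (List.cons.inj h).1
  · cases p with
    | nil =>
      rcases hr with hr | hr
      · exact absurd readable_nil hr
      · simp at hr; omega
    | cons c p =>
      have h1 := (List.cons_prefix_cons.1 hp).1
      have h2 := (List.cons_prefix_cons.1 hq).1
      rw [← h1, ← h2]

/-- two unreadable words commute only if they are equivalent -/
theorem unread_comm (hLEC : S_LEC) (hREQ : S_REQ) (hn : 4 ≤ n) (hT : Ty n T)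
    (s t : List Ltr) (hs : ¬ Readable T s) (ht : ¬ Readable T t)
    (h : E n T (s ++ t) (t ++ s)) : E n T s t := by
  have e1 := (hLEC n T hn hT).1
  have e2 := (hREQ n T hn hT).1
  have a1 : LE n T (s ++ t) s := Or.inr ⟨s, List.prefix_append _ _, List.prefix_rfl, Or.inl hs⟩
  have a2 : LE n T (t ++ s) t := Or.inr ⟨t, List.prefix_append _ _, List.prefix_rfl, Or.inl ht⟩
  have b1 : RE n T (s ++ t) t := Or.inr (Or.inl ⟨t, List.suffix_append _ _, List.suffix_rfl, ht⟩)
  have b2 : RE n T (t ++ s) s := Or.inr (Or.inl ⟨s, List.suffix_append _ _, List.suffix_rfl, hs⟩)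
  exact ⟨e1.trans (e1.symm a1) (e1.trans h.1 a2), e2.trans (e2.symm b2) (e2.trans (e2.symm h.2) b1)⟩

/-- the last `n` letters of equivalent loops agree -/
theorem tail_unique (hREQ : S_REQ) (hn : 4 ≤ n) (hT : Ty n T) (s s' z z' : List Ltr)
    (hs : s ≠ []) (hs' : s' ≠ []) (hr : Readable T s) (hr' : Readable T s')
    (h : E n T s s') (hz : Tail n s z) (hz' : Tail n s' z') : z = z' := by
  obtain ⟨-, huniq, -, -, -⟩ := hREQ n T hn hT
  have key : ∀ s z : List Ltr, s ≠ [] → Readable T s → Tail n s z → Suf n T s none 0 z := by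
    intro s z hs hr hz
    have hpos : 0 < s.length := List.length_pos_iff.2 hs
    exact ⟨s, hr, Nat.le_of_dvd hpos hz.2.2, Nat.mod_eq_zero_of_dvd hz.2.2, hz.1, hz.2.1,
      Or.inl ⟨rfl, rfl⟩⟩
  have k1 := key s z hs hr hz
  have k2 := key s' z' hs' hr' hz'
  rcases h.2 with h2 | ⟨q, hq, -, hq'⟩ | ⟨h0, m, y, y', hy, hy', hzz⟩
  · subst h2
    exact (huniq s none 0 z none 0 z' k1 k2).2.2
  · exfalso
    apply hq'
    obtain ⟨i, hi⟩ := hr
    obtain ⟨p, hp⟩ := hq
    have : ∀ (p : List Ltr) (i : ℕ), Rd T i (p ++ q) → Readable T q := by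
      intro p
      induction p with
      | nil => intro i h; exact ⟨i, h⟩
      | cons a p ih => intro i h; exact ih (i + 1) h.2
    rw [← hp] at hi
    exact this p i hi
  · obtain ⟨c1, c2, c3⟩ := huniq _ _ _ _ _ _ _ hy k1
    obtain ⟨d1, d2, d3⟩ := huniq _ _ _ _ _ _ _ hy' k2
    rcases hzz with h | ⟨h, -⟩
    · rw [← c3, ← d3, h]
    · rw [c1] at h
      exact absurd h (by simp)

end

theorem assemble (hTY : S_TY) (hLEC : S_LEC) (hREQ : S_REQ) (hREL : S_REL) (hRER : S_RER)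
    (hFIN : S_FIN) (hLOOP : S_LOOP) (hCOM : S_COM) (hADJ : S_ADJ) (hONE : S_ONE) (hLEV : S_LEV)
    (hCYS : S_CYS) (hGIR : S_GIR) (hMIN : S_MIN) :
    ∀ g : ℕ, ∃ (S : Type) (_ : Semigroup S), Finite S ∧
      (∃ A : Finset S, A.card ≤ 12 ∧ Subsemigroup.closure (A : Set S) = ⊤) ∧
      ¬ (commGraph S).IsAcyclic ∧ g < (commGraph S).girth := by
  classical
  intro g
  obtain ⟨n, hng⟩ : ∃ n, n = g + 5 := ⟨_, rfl⟩
  have hn : 4 ≤ n := by omega
  obtain ⟨T, hT⟩ := hTY n hn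
  have e1 := (hLEC n T hn hT).1
  have e2 := (hREQ n T hn hT).1
  have hEs : ∀ {a b}, E n T a b → E n T b a := fun h => ⟨e1.symm h.1, e2.symm h.2⟩
  have hEt : ∀ {a b c}, E n T a b → E n T b c → E n T a c :=
    fun h h' => ⟨e1.trans h.1 h'.1, e2.trans h.2 h'.2⟩
  have hErd : ∀ {a b}, E n T a b → (Readable T a ↔ Readable T b) :=
    fun {a b} h => (hREQ n T hn hT).2.2.2.2 a b h.2
  obtain ⟨c, hc⟩ : ∃ c, c = con n T hLEC hREQ hREL hRER hn hT := ⟨_, rfl⟩
  have hcr : ∀ a b : Wd, c a b ↔ E n T a.1 b.1 := by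
    intro a b; rw [hc]; rfl
  let S : Type := c.Quotient
  let mk : Wd → S := fun w => (w : c.Quotient)
  have hmk : ∀ a b : Wd, mk a = mk b ↔ E n T a.1 b.1 := by
    intro a b
    rw [← hcr]
    exact c.eq
  have hmul : ∀ a b : Wd, mk (a * b) = mk a * mk b := fun a b => rfl
  have hsurj : ∀ x : S, ∃ a, mk a = x := fun x => Quotient.exists_rep x
  have hcomm : ∀ a b : Wd, mk a * mk b = mk b * mk a ↔ E n T (a.1 ++ b.1) (b.1 ++ a.1) := by
    intro a b
    rw [← hmul, ← hmul, hmk]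
    rfl
  -- the centre is empty
  have hcen : ∀ x : S, x ∉ Set.center S := by
    intro x hx
    rw [Semigroup.mem_center_iff] at hx
    obtain ⟨w, rfl⟩ := hsurj x
    have hf := hx (mk ⟨[(5, false)], by simp⟩)
    have ht := hx (mk ⟨[(5, true)], by simp⟩)
    rw [hcomm] at hf ht
    by_cases hr : Readable T w.1
    · obtain ⟨w, hw⟩ := w
      cases w with
      | nil => exact hw rfl
      | cons a w =>
        have := le_head hn _ _ _ _ hf.1
        obtain ⟨i, hi, -⟩ := hr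
        rw [← this] at hi
        exact hT.ne5 i hi.symm
    · have h1 := unread_comm hLEC hREQ hn hT _ _ (not_readable_dollar hT false []) hr hf
      have h2 := unread_comm hLEC hREQ hn hT _ _ (not_readable_dollar hT true []) hr ht
      have h3 := hEt h1 (hEs h2)
      have := le_head hn _ _ _ _ h3.1
      simp at this
  -- vertices
  let V : Type := {x : S // x ∉ Set.center S}
  let v : Wd → V := fun w => ⟨mk w, hcen _⟩
  have hvsurj : ∀ x : V, ∃ a, v a = x := by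
    rintro ⟨x, hx⟩
    obtain ⟨a, rfl⟩ := hsurj x
    exact ⟨a, rfl⟩
  have hv : ∀ a b : Wd, v a = v b ↔ E n T a.1 b.1 := by
    intro a b
    rw [← hmk]
    exact Subtype.ext_iff
  have hadj : ∀ a b : Wd, (commGraph S).Adj (v a) (v b) ↔
      ¬ E n T a.1 b.1 ∧ E n T (a.1 ++ b.1) (b.1 ++ a.1) := by
    intro a b
    rw [← hv, ← hcomm]
    rfl
  let K : Set V := {x | ∃ a, v a = x ∧ ¬ Readable T a.1}
  have hK : ∀ a, v a ∈ K ↔ ¬ Readable T a.1 := by
    intro a
    constructor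
    · rintro ⟨b, hb, hr⟩
      rw [hv] at hb
      rw [← hErd hb]
      exact hr
    · intro h
      exact ⟨a, rfl, h⟩
  have hbip : ∀ x y : V, (commGraph S).Adj x y → (x ∈ K ↔ y ∉ K) := by
    intro x y hxy
    obtain ⟨a, rfl⟩ := hvsurj x
    obtain ⟨b, rfl⟩ := hvsurj y
    rw [hK, hK, not_not]
    obtain ⟨hne, hco⟩ := (hadj a b).1 hxy
    by_cases ha : Readable T a.1
    · by_cases hb : Readable T b.1
      · exfalso
        apply hne
        apply hCOM n T hn hT a.1 b.1 a.2 b.2 ha hb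
        · exact ((hLEC n T hn hT).2 _ _ (5, false) hco.1).2
        · exact hREL n T hn hT _ _ (5, false) hco.2
      · simp [ha, hb]
    · by_cases hb : Readable T b.1
      · simp [ha, hb]
      · exfalso
        exact hne (unread_comm hLEC hREQ hn hT _ _ ha hb hco)
  obtain ⟨l1, l2, l3, l4⟩ := hLEV n T hn hT
  let U0 : V → ℕ → Prop := fun x u => ∃ a : Wd, v a = x ∧ Readable T a.1 ∧ ∃ z, Tail n a.1 z ∧ Lev0 n T z u
  let U1 : V → ℕ → Prop := fun x u => ∃ a : Wd, v a = x ∧ Readable T a.1 ∧ ∃ z, Tail n a.1 z ∧ Lev1 n T z u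
  have htu : ∀ (a b : Wd) (z z' : List Ltr), v a = v b → Readable T a.1 → Readable T b.1 →
      Tail n a.1 z → Tail n b.1 z' → z = z' := by
    intro a b z z' hab ha hb hz hz'
    exact tail_unique hREQ hn hT _ _ _ _ a.2 b.2 ha hb ((hv a b).1 hab) hz hz'
  have u0 : ∀ x u u', U0 x u → U0 x u' → u = u' := by
    rintro x u u' ⟨a, ha, hra, z, hz, hl⟩ ⟨b, hb, hrb, z', hz', hl'⟩
    have := htu a b z z' (ha.trans hb.symm) hra hrb hz hz'
    subst this
    exact l1 _ _ _ hl hl'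
  have u1 : ∀ x u u', U1 x u → U1 x u' → u = u' := by
    rintro x u u' ⟨a, ha, hra, z, hz, hl⟩ ⟨b, hb, hrb, z', hz', hl'⟩
    have := htu a b z z' (ha.trans hb.symm) hra hrb hz hz'
    subst this
    exact l2 _ _ _ hl hl'
  have u01 : ∀ x u u', ¬ (U0 x u ∧ U1 x u') := by
    rintro x u u' ⟨⟨a, ha, hra, z, hz, hl⟩, ⟨b, hb, hrb, z', hz', hl'⟩⟩
    have := htu a b z z' (ha.trans hb.symm) hra hrb hz hz'
    subst this
    exact l3 _ _ _ ⟨hl, hl'⟩
  -- a readable word with two neighbours is a loop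
  have hloop2 : ∀ a : Wd, Readable T a.1 → ∀ k1 k2 : V, k1 ≠ k2 → (commGraph S).Adj (v a) k1 →
      (commGraph S).Adj (v a) k2 → Readable T (a.1 ++ a.1) := by
    intro a ha k1 k2 hk h1 h2
    by_contra hcon
    have hk1 : k1 ∈ K := by
      have := (hbip _ _ h1)
      rw [hK] at this
      by_contra h3
      exact this.2 h3 ha
    have hk2 : k2 ∈ K := by
      have := (hbip _ _ h2)
      rw [hK] at this
      by_contra h3
      exact this.2 h3 ha
    obtain ⟨b1, rfl⟩ := hvsurj k1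
    obtain ⟨b2, rfl⟩ := hvsurj k2
    rw [hK] at hk1 hk2
    have c1 := hONE n T hn hT hLEC hREQ hREL hRER a.1 b1.1 a.2 ha hk1 hcon ((hadj _ _).1 h1).2
    have c2 := hONE n T hn hT hLEC hREQ hREL hRER a.1 b2.1 a.2 ha hk2 hcon ((hadj _ _).1 h2).2
    exact hk ((hv _ _).2 (hEt (hEs c1) c2))
  have hmain : ∀ s κ κ' s1 s1' : V, s ∉ K → (commGraph S).Adj s κ → (commGraph S).Adj s κ' →
      κ ≠ κ' → (commGraph S).Adj κ s1 → (commGraph S).Adj κ' s1' →
      s1 ≠ s → s1' ≠ s → (∃ κ2, κ2 ≠ κ ∧ (commGraph S).Adj s1 κ2) →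
      (∃ κ2, κ2 ≠ κ' ∧ (commGraph S).Adj s1' κ2) →
      (∃ u, U0 s u ∧ 1 ≤ u ∧ u ≤ n - 1 ∧ (u < n - 1 → U0 s1 (u + 1) ∨ U0 s1' (u + 1)) ∧
        (1 < u → U0 s1 (u - 1) ∨ U0 s1' (u - 1))) ∨
      ∃ u, U1 s (u + 1) ∧ (U1 s1 u ∨ U1 s1' u) := by
    intro s κ κ' s1 s1' hs h1 h2 hκ h3 h4 hs1 hs1' h5 h6
    have kκ : κ ∈ K := by
      have := hbip _ _ h1
      by_contra h
      exact hs (this.2 h)
    have kκ' : κ' ∈ K := by
      have := hbip _ _ h2
      by_contra h
      exact hs (this.2 h)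
    have ks1 : s1 ∉ K := (hbip _ _ h3).1 kκ
    have ks1' : s1' ∉ K := (hbip _ _ h4).1 kκ'
    obtain ⟨a, rfl⟩ := hvsurj s
    obtain ⟨k, rfl⟩ := hvsurj κ
    obtain ⟨k', rfl⟩ := hvsurj κ'
    obtain ⟨b, rfl⟩ := hvsurj s1
    obtain ⟨b', rfl⟩ := hvsurj s1'
    rw [hK, not_not] at hs ks1 ks1'
    rw [hK] at kκ kκ'
    obtain ⟨q, hq, hq'⟩ := h5
    obtain ⟨q', hqq, hqq'⟩ := h6
    have r1 := hloop2 b ks1 _ _ hq hq' h3.symm
    have r1' := hloop2 b' ks1' _ _ hqq hqq' h4.symm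
    obtain ⟨z, z1, z1', m, m', t, t1, t1', f, f', hm, hm', hmm⟩ :=
      hADJ n T hn hT hLEC hREQ hREL hRER hLOOP a.1 k.1 k'.1 b.1 b'.1 a.2 k.2 k'.2 b.2 b'.2
        hs ks1 ks1' kκ kκ' r1 r1' ((hadj _ _).1 h1).2 ((hadj _ _).1 h3.symm).2
        ((hadj _ _).1 h2).2 ((hadj _ _).1 h4.symm).2
        (fun h => hs1 ((hv _ _).2 (hEs h))) (fun h => hs1' ((hv _ _).2 (hEs h)))
        (fun h => hκ ((hv _ _).2 h))
    rcases l4 z z1 z1' m m' f f' hm hm' hmm with ⟨u, hu, hup, hdn⟩ | ⟨u, hu, hd⟩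
    · left
      refine ⟨u, ⟨a, rfl, hs, z, t, hu⟩, hu.2.2.1, hu.2.2.2.1, ?_, ?_⟩
      · intro h
        rcases hup h with h | h
        · exact Or.inl ⟨b, rfl, ks1, z1, t1, h⟩
        · exact Or.inr ⟨b', rfl, ks1', z1', t1', h⟩
      · intro h
        rcases hdn h with h | h
        · exact Or.inl ⟨b, rfl, ks1, z1, t1, h⟩
        · exact Or.inr ⟨b', rfl, ks1', z1', t1', h⟩
    · right
      refine ⟨u, ⟨a, rfl, hs, z, t, hu⟩, ?_⟩
      rcases hd with h | h
      · exact Or.inl ⟨b, rfl, ks1, z1, t1, h⟩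
      · exact Or.inr ⟨b', rfl, ks1', z1', t1', h⟩
  have hcyc := hGIR V (commGraph S) K U0 U1 (n - 1) hbip u0 u1 u01 hmain
  have hnac : ¬ (commGraph S).IsAcyclic := by
    obtain ⟨P, Q, hP, hQ, hne, hp, hq, hPQ, hQP⟩ := hCYS n T hn hT hLEC hREQ
    have hpk : ∀ (s κ : Wd), s.1 ∈ P → κ.1 ∈ Q → E n T (s.1 ++ κ.1) (κ.1 ++ s.1) →
        (commGraph S).Adj (v s) (v κ) := by
      intro s κ hs hκ h
      refine (hadj _ _).2 ⟨?_, h⟩
      intro hE
      exact (hq _ hκ).2 ((hErd hE).1 (hp _ hs).2)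
    apply hMIN V (commGraph S) (v '' (Subtype.val ⁻¹' (P ∪ Q)))
    · exact ((hP.union hQ).preimage Subtype.val_injective.injOn).image _
    · obtain ⟨s, hs⟩ := hne
      exact ⟨v ⟨s, (hp s hs).1⟩, ⟨s, (hp s hs).1⟩, Or.inl hs, rfl⟩
    · rintro x ⟨⟨w, hw⟩, hwPQ, rfl⟩
      rcases hwPQ with hwP | hwQ
      · obtain ⟨κ, hκ, κ', hκ', hne, h1, h2⟩ := hPQ w hwP
        refine ⟨v ⟨κ, (hq κ hκ).1⟩, ⟨⟨κ, (hq κ hκ).1⟩, Or.inr hκ, rfl⟩,
          v ⟨κ', (hq κ' hκ').1⟩, ⟨⟨κ', (hq κ' hκ').1⟩, Or.inr hκ', rfl⟩, ?_, ?_, ?_⟩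
        · intro h
          exact hne ((hv _ _).1 h)
        · exact hpk ⟨w, hw⟩ ⟨κ, (hq κ hκ).1⟩ hwP hκ h1
        · exact hpk ⟨w, hw⟩ ⟨κ', (hq κ' hκ').1⟩ hwP hκ' h2
      · obtain ⟨s, hs, s', hs', hne, h1, h2⟩ := hQP w hwQ
        refine ⟨v ⟨s, (hp s hs).1⟩, ⟨⟨s, (hp s hs).1⟩, Or.inl hs, rfl⟩,
          v ⟨s', (hp s' hs').1⟩, ⟨⟨s', (hp s' hs').1⟩, Or.inl hs', rfl⟩, ?_, ?_, ?_⟩
        · intro h
          exact hne ((hv _ _).1 h)
        · exact (hpk ⟨s, (hp s hs).1⟩ ⟨w, hw⟩ hs hwQ h1).symm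
        · exact (hpk ⟨s', (hp s' hs').1⟩ ⟨w, hw⟩ hs' hwQ h2).symm
  refine ⟨S, inferInstance, ?_, ?_, ?_, ?_⟩
  · -- finite
    have hfin : Finite {w : List Ltr // w.length ≤ 5 * n} := (List.finite_length_le Ltr (5 * n)).to_subtype
    let f : {w : List Ltr // w.length ≤ 5 * n} → S := fun w =>
      if h : w.1 ≠ [] then mk ⟨w.1, h⟩ else mk ⟨[(5, false)], by simp⟩
    apply Finite.of_surjective f
    intro x
    obtain ⟨u, rfl⟩ := hsurj x
    obtain ⟨w, hw, hwl, hE⟩ := hFIN n T hn hT u.1 u.2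
    refine ⟨⟨w, hwl⟩, ?_⟩
    simp only [f]
    rw [dif_pos hw, hmk]
    exact hEs hE
  · -- generators
    refine ⟨(Finset.univ : Finset Ltr).image (fun a => mk ⟨[a], by simp⟩), ?_, ?_⟩
    · refine le_trans Finset.card_image_le ?_
      simp [Fintype.card_prod]
    · rw [eq_top_iff]
      intro x _
      obtain ⟨⟨w, hw⟩, rfl⟩ := hsurj x
      induction w with
      | nil => exact absurd rfl hw
      | cons a w ih =>
        by_cases hw' : w = []
        · subst hw'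
          apply Subsemigroup.subset_closure
          simp
        · have : mk ⟨a :: w, hw⟩ = mk ⟨[a], by simp⟩ * mk ⟨w, hw'⟩ := rfl
          rw [this]
          apply Subsemigroup.mul_mem
          · apply Subsemigroup.subset_closure
            simp
          · exact ih hw' trivial
  · exact hnac
  · obtain ⟨x, w, hw, hlen⟩ := SimpleGraph.exists_girth_eq_length.2 hnac
    have := hcyc x w hw
    omega

end Pool.Agent.X172.GR
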